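import Pool.Agent.H84.RV.Exact

/-!
The maximum number of edges of the graph of a representation with `n` rectangles and `2 * n` eyes
in total is `⌊3 n ^ 2 / 8⌋ + max (n - 4) 0`, for every `n`. The upper bound holds for every number
of eyes.
-/

open Pool.Agent.H84.RV

namespace Pool.Agent.Results.MP_fd1666_co.ExactValue

theorem result (n : ℕ) :
    f n = 3 * n ^ 2 / 8 + (n - 4) ∧
    IsGreatest {m | ∃ R : Rep n, R.numEyes = 2 * n ∧ R.numEdges = m} (3 * n ^ 2 / 8 + (n - 4)) ∧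
    (∃ R : Rep n, (∀ i, (R.eyes i).card = 2) ∧ R.numEdges = 3 * n ^ 2 / 8 + (n - 4)) ∧
    (∀ R : Rep n, R.numEdges ≤ 3 * n ^ 2 / 8 + (n - 4)) :=
  ⟨(isGreatest n).csSup_eq, isGreatest n,
    ⟨(cons n).toRep, cons_eyes n, le_antisymm (numEdges_le_all _) (cons_numEdges n)⟩,
    numEdges_le_all⟩

end Pool.Agent.Results.MP_fd1666_co.ExactValue
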